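import Mathlib

/-!
# Project JF (helper991): finite generation of the terms of the Johnson filtration
Statements.
-/

set_option autoImplicit false

namespace Pool.Agent.N991.JF

/-- The term `γ_{k+1}(π)` of the lower central series of `π`. -/
abbrev gam (π : Type) [Group π] (k : ℕ) : Subgroup π := (⊤ : Subgroup π).lowerCentralSeries k

theorem gam_aut {π : Type} [Group π] (k : ℕ) (α : MulAut π) {x : π} (hx : x ∈ gam π k) :
    α x ∈ gam π k := by
  have h : (gam π k).map (α : π ≃* π).toMonoidHom ≤ gam π k := by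
    rw [gam, Subgroup.map_lowerCentralSeries]
    have h1 : (⊤ : Subgroup π).map (α : π ≃* π).toMonoidHom = ⊤ :=
      Subgroup.map_top_of_surjective _ (α : π ≃* π).surjective
    rw [h1]
  exact h ⟨x, hx, rfl⟩

/-- The automorphisms of `π` which act trivially on `π / γ_{k+1}(π)`. -/
def autJ (π : Type) [Group π] (k : ℕ) : Subgroup (MulAut π) where
  carrier := {α | ∀ x : π, α x * x⁻¹ ∈ gam π k}
  one_mem' := fun x => by
    change x * x⁻¹ ∈ _
    rw [mul_inv_cancel]
    exact Subgroup.one_mem _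
  mul_mem' := fun {α β} hα hβ x => by
    have h : (α * β) x * x⁻¹ = (α (β x) * (β x)⁻¹) * (β x * x⁻¹) := by
      rw [MulAut.mul_apply]
      group
    rw [h]
    exact Subgroup.mul_mem _ (hα _) (hβ x)
  inv_mem' := fun {α} hα x => by
    have h := Subgroup.inv_mem _ (hα (α⁻¹ x))
    have h2 : α (α⁻¹ x) = x := MulAut.apply_inv_self π α x
    rw [h2] at h
    have h3 : (x * (α⁻¹ x)⁻¹)⁻¹ = α⁻¹ x * x⁻¹ := by group
    rwa [h3] at h

/-- ANDR. The Andreadakis filtration is central. -/
def S_ANDR : Prop :=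
  ∀ (π : Type) [Group π] (j : ℕ), ⁅autJ π 1, autJ π j⁆ ≤ autJ π (j + 1)

end Pool.Agent.N991.JF
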