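import Pool.Agent.N984.QS.FGZ
import Pool.Agent.N985.QS.TAU
import Pool.Agent.N985.QS.NOE

/-!
# Project JF: normal subgroups with nilpotent quotient
-/

set_option autoImplicit false

namespace Pool.Agent.N991.JF

open Pool.Agent.N991.QS

open scoped commutatorElement

theorem sup_closure_normal {H : Type} [Group H] (P : Subgroup H) [P.Normal] (T : Set H)
    (hT : ∀ t ∈ T, ∀ h : H, h * t * h⁻¹ * t⁻¹ ∈ P) : (P ⊔ Subgroup.closure T).Normal := by
  have hc : (Subgroup.closure T).map (QuotientGroup.mk' P) ≤ Subgroup.center (H ⧸ P) := by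
    rw [MonoidHom.map_closure, Subgroup.closure_le]
    rintro _ ⟨t, ht, rfl⟩
    rw [SetLike.mem_coe, Subgroup.mem_center_iff]
    intro g
    induction g using QuotientGroup.induction_on with
    | H h =>
      change ((h * t : H) : H ⧸ P) = ((t * h : H) : H ⧸ P)
      have h1 := hT t ht h
      rw [← QuotientGroup.eq_one_iff] at h1
      have h2 : h * t = h * t * h⁻¹ * t⁻¹ * (t * h) := by group
      rw [h2, QuotientGroup.mk_mul _ (h * t * h⁻¹ * t⁻¹), h1, one_mul]
  have hn : ((Subgroup.closure T).map (QuotientGroup.mk' P)).Normal := by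
    constructor
    intro n hn g
    have h1 := Subgroup.mem_center_iff.1 (hc hn) g
    rw [h1, mul_inv_cancel_right]
    exact hn
  have h3 := hn.comap (QuotientGroup.mk' P)
  rwa [QuotientGroup.comap_map_mk'] at h3

theorem fg_of_central {H : Type} [Group H] (T : Finset H) : ∀ (P : Subgroup H), P.Normal →
    (∃ c : ℕ, (⊤ : Subgroup H).lowerCentralSeries c ≤ P) →
    (∀ t ∈ T, ∀ h : H, h * t * h⁻¹ * t⁻¹ ∈ P) →
    (∀ t ∈ T, ∀ τ : Additive H →+ ℝ, τ (Additive.ofMul t) = 0) →
    (P ⊔ Subgroup.closure (T : Set H)).FG → P.FG := by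
  classical
  induction T using Finset.induction_on with
  | empty =>
    intro P _ _ _ _ h
    rwa [Finset.coe_empty, Subgroup.closure_empty, sup_bot_eq] at h
  | insert t T _ ih =>
    intro P hP hnil hcen hzero hfg
    refine ih P hP hnil (fun s hs => hcen s (Finset.mem_insert_of_mem hs))
      (fun s hs => hzero s (Finset.mem_insert_of_mem hs)) ?_
    have hn : (P ⊔ Subgroup.closure (T : Set H)).Normal :=
      sup_closure_normal P (T : Set H) (fun s hs => hcen s (Finset.mem_insert_of_mem hs))
    have hD : P ⊔ Subgroup.closure ((insert t T : Finset H) : Set H) =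
        (P ⊔ Subgroup.closure (T : Set H)) ⊔ Subgroup.closure {t} := by
      rw [Finset.coe_insert, Set.insert_eq, Subgroup.closure_union, sup_assoc,
        sup_comm (Subgroup.closure {t})]
    rw [hD] at hfg
    refine (Pool.Agent.N984.QS.t_FGZ Pool.Agent.N985.QS.TAU.t_TAU) H
      ((P ⊔ Subgroup.closure (T : Set H)) ⊔ Subgroup.closure {t})
      (P ⊔ Subgroup.closure (T : Set H)) t le_sup_left hfg
      (Subgroup.mem_sup_right (Subgroup.mem_closure_singleton_self t)) ?_ ?_ ?_
      (hzero t (Finset.mem_insert_self t T))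
    · intro d hd
      rw [Subgroup.mem_sup_of_normal_left] at hd
      obtain ⟨y, hy, z, hz, rfl⟩ := hd
      obtain ⟨n, rfl⟩ := Subgroup.mem_closure_singleton.1 hz
      refine ⟨-n, ?_⟩
      rw [mul_assoc, ← zpow_add, add_neg_cancel, zpow_zero, mul_one]
      exact hy
    · intro h
      exact Subgroup.mem_sup_left (hcen t (Finset.mem_insert_self t T) h)
    · obtain ⟨c, hc⟩ := hnil
      exact ⟨c, hc.trans le_sup_left⟩

/-- `D = P L` is finitely generated, `L` is central modulo `P`. -/
theorem fg_step {H : Type} [Group H] (P L : Subgroup H) [hP : P.Normal]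
    (hnil : ∃ c : ℕ, (⊤ : Subgroup H).lowerCentralSeries c ≤ P)
    (hcen : ∀ t ∈ L, ∀ h : H, h * t * h⁻¹ * t⁻¹ ∈ P)
    (hzero : ∀ t ∈ L, ∀ τ : Additive H →+ ℝ, τ (Additive.ofMul t) = 0)
    (hfg : (P ⊔ L).FG) : P.FG := by
  classical
  obtain ⟨S, hS⟩ := hfg
  have h1 : ∀ s : H, ∃ l : H, s ∈ S → l ∈ L ∧ ∃ p ∈ P, p * l = s := by
    intro s
    by_cases hs : s ∈ S
    · have h2 : s ∈ P ⊔ L := hS ▸ Subgroup.subset_closure hs
      rw [Subgroup.mem_sup_of_normal_left] at h2
      obtain ⟨y, hy, z, hz, h3⟩ := h2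
      exact ⟨z, fun _ => ⟨hz, y, hy, h3⟩⟩
    · exact ⟨1, fun h => absurd h hs⟩
  choose l hl using h1
  refine fg_of_central (S.image l) P hP hnil ?_ ?_ ?_
  · intro t ht
    obtain ⟨s, hs, rfl⟩ := Finset.mem_image.1 ht
    exact hcen _ (hl s hs).1
  · intro t ht
    obtain ⟨s, hs, rfl⟩ := Finset.mem_image.1 ht
    exact hzero _ (hl s hs).1
  · have h4 : P ⊔ Subgroup.closure ((S.image l : Finset H) : Set H) = P ⊔ L := by
      apply le_antisymm
      · refine sup_le_sup_left ?_ P
        rw [Subgroup.closure_le]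
        intro t ht
        obtain ⟨s, hs, rfl⟩ := Finset.mem_image.1 (Finset.mem_coe.1 ht)
        exact (hl s hs).1
      · rw [← hS, Subgroup.closure_le]
        intro s hs
        obtain ⟨p, hp, h5⟩ := (hl s hs).2
        rw [← h5]
        exact Subgroup.mul_mem _ (Subgroup.mem_sup_left hp) (Subgroup.mem_sup_right
          (Subgroup.subset_closure (Finset.mem_coe.2 (Finset.mem_image_of_mem l hs))))
    rw [h4]
    exact ⟨S, hS⟩

theorem hom_zero_of_comm {G : Type} [Group G] {t : G} (ht : t ∈ commutator G)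
    (τ : Additive G →+ ℝ) : τ (Additive.ofMul t) = 0 := by
  have h := Abelianization.commutator_subset_ker (AddMonoidHom.toMultiplicativeRight τ)
  exact h ht

/-- If `G / N` is nilpotent and `N [G, G]` is finitely generated, then `N` is finitely
generated. -/
theorem fg_of_sup {G : Type} [Group G] (N : Subgroup G) [hN : N.Normal]
    (hnil : ∃ c : ℕ, (⊤ : Subgroup G).lowerCentralSeries c ≤ N) (h : (N ⊔ commutator G).FG) :
    N.FG := by
  have key : ∀ i : ℕ, (N ⊔ (⊤ : Subgroup G).lowerCentralSeries (i + 1)).FG := by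
    intro i
    induction i with
    | zero => rwa [zero_add, Subgroup.top_lowerCentralSeries_one]
    | succ i ih =>
      have hn : (N ⊔ (⊤ : Subgroup G).lowerCentralSeries (i + 1 + 1)).Normal := inferInstance
      refine fg_step (N ⊔ (⊤ : Subgroup G).lowerCentralSeries (i + 1 + 1))
        ((⊤ : Subgroup G).lowerCentralSeries (i + 1)) ?_ ?_ ?_ ?_
      · obtain ⟨c, hc⟩ := hnil
        exact ⟨c, hc.trans le_sup_left⟩
      · intro t ht g
        refine Subgroup.mem_sup_right ?_
        rw [Subgroup.lowerCentralSeries_succ, Subgroup.commutator_comm]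
        exact Subgroup.commutator_mem_commutator (Subgroup.mem_top g) ht
      · intro t ht τ
        refine hom_zero_of_comm ?_ τ
        have h1 : (⊤ : Subgroup G).lowerCentralSeries (i + 1) ≤
            (⊤ : Subgroup G).lowerCentralSeries 1 :=
          Subgroup.lowerCentralSeries_antitone _ (by omega)
        rw [Subgroup.top_lowerCentralSeries_one] at h1
        exact h1 ht
      · have h2 : (⊤ : Subgroup G).lowerCentralSeries (i + 1 + 1) ≤
            (⊤ : Subgroup G).lowerCentralSeries (i + 1) :=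
          Subgroup.lowerCentralSeries_antitone _ (by omega)
        rw [sup_assoc, sup_eq_right.2 h2]
        exact ih
  obtain ⟨c, hc⟩ := hnil
  have h3 := key c
  have h4 : (⊤ : Subgroup G).lowerCentralSeries (c + 1) ≤ N :=
    (Subgroup.lowerCentralSeries_antitone _ (by omega)).trans hc
  rwa [sup_eq_left.2 h4] at h3

/-- Subgroups which contain a finitely generated normal subgroup with nilpotent quotient. -/
theorem fg_above {G : Type} [Group G] (hG : Group.FG G) (N K : Subgroup G) [hN : N.Normal]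
    (hnil : ∃ c : ℕ, (⊤ : Subgroup G).lowerCentralSeries c ≤ N) (h : N.FG) (hK : N ≤ K) : K.FG :=
  Pool.Agent.N985.QS.NOE.t_NOE G N K hG h hK (fun g d hd => hN.conj_mem d hd g) hnil

/-- **Theorem N.** -/
theorem fg_iff_sup {G : Type} [Group G] (hG : Group.FG G) (N : Subgroup G) [hN : N.Normal]
    (hnil : ∃ c : ℕ, (⊤ : Subgroup G).lowerCentralSeries c ≤ N) :
    N.FG ↔ (N ⊔ commutator G).FG :=
  ⟨fun h => fg_above hG N _ hnil h le_sup_left, fg_of_sup N hnil⟩

/-- All subgroups which contain a term of the lower central series. -/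
theorem fg_of_lcs {G : Type} [Group G] (hG : Group.FG G) (hc : (commutator G).FG) (k : ℕ)
    (K : Subgroup G) (hK : (⊤ : Subgroup G).lowerCentralSeries k ≤ K) : K.FG := by
  refine fg_above hG ((⊤ : Subgroup G).lowerCentralSeries k) K ⟨k, le_rfl⟩ ?_ hK
  cases k with
  | zero =>
    rw [Subgroup.lowerCentralSeries_zero]
    exact (Group.fg_def.1 hG)
  | succ k =>
    refine fg_of_sup _ ⟨k + 1, le_rfl⟩ ?_
    have h1 : (⊤ : Subgroup G).lowerCentralSeries (k + 1) ≤
        (⊤ : Subgroup G).lowerCentralSeries 1 :=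
      Subgroup.lowerCentralSeries_antitone _ (by omega)
    rw [Subgroup.top_lowerCentralSeries_one] at h1
    rwa [sup_eq_right.2 h1]

end Pool.Agent.N991.JF
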